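import Mathlib
import Pool.Agent.H44.StepIso2

set_option autoImplicit false

namespace Pool.Agent.Results.MP_076221_an.StepIsoExtend

open Pool.Agent.H44 TopologicalSpace

/-- Let `X` be a (real or complex) Banach space which is strictly convex and has separable dual,
let `S` be a dense subset of `X` (countable or not), and let `T` be a step-isometry on `S`.
Then `T` extends to a step-isometry of the whole space `X`. -/
theorem result {𝕜 : Type*} [RCLike 𝕜] {X : Type*} [NormedAddCommGroup X] [NormedSpace 𝕜 X]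
    [CompleteSpace X]
    (hsc : ∀ x y : X, ‖x‖ = 1 → ‖y‖ = 1 → x ≠ y → ‖(2⁻¹ : 𝕜) • (x + y)‖ < 1)
    (hsep : SeparableSpace (StrongDual 𝕜 X))
    (S : Set X) (hS : Dense S) (T : S ≃ S)
    (hT : ∀ x y : S, ⌊‖(x : X) - (y : X)‖⌋ = ⌊‖(T x : X) - (T y : X)‖⌋) :
    ∃ T' : X ≃ X, (∀ x y : X, ⌊‖x - y‖⌋ = ⌊‖T' x - T' y‖⌋) ∧ ∀ s : S, T' s = T s := by
  letI : NormedSpace ℝ X := NormedSpace.restrictScalars ℝ 𝕜 X
  haveI : IsScalarTower ℝ 𝕜 X := ⟨fun r a x => by
    change (r • a) • x = (algebraMap ℝ 𝕜 r) • (a • x)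
    rw [smul_smul, Algebra.smul_def]⟩
  haveI : SeparableSpace (StrongDual ℝ X) := by
    have e : StrongDual ℝ X ≃ₗᵢ[ℝ] StrongDual 𝕜 X := StrongDual.extendRCLikeₗᵢ
    exact e.symm.surjective.denseRange.separableSpace e.symm.continuous
  refine main_real ?_ S hS T hT
  intro x y hx hy hxy
  have h := hsc x y hx hy hxy
  rw [norm_smul, norm_inv] at h
  have h2 : ‖(2 : 𝕜)‖ = 2 := by
    rw [← Nat.cast_ofNat, RCLike.norm_natCast]; norm_num
  rw [h2] at h
  linarith

end Pool.Agent.Results.MP_076221_an.StepIsoExtend
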